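import Mathlib
import Pool.Agent.Helper839.PS.A
import Pool.Agent.Helper839.PS.B
import Pool.Agent.Helper839.PS.C
import Pool.Agent.Helper839.PS.D
import Pool.Agent.Helper839.PS.E
import Pool.Agent.Helper839.PS.G
import Pool.Agent.Helper839.PS.H

set_option linter.all false

open MeasureTheory Set Filter Topology
open Pool.Agent.Helper839.PS

namespace Pool.Agent.Results.MP_72041b_co.AllDimensions

/-- A convex body in `ℝ^k`: a compact convex set with nonempty interior. -/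
def IsConvexBody {k : ℕ} (K : Set (EuclideanSpace ℝ (Fin k))) : Prop :=
  IsCompact K ∧ Convex ℝ K ∧ (interior K).Nonempty

/-- `Q` is a cube with side `s`: the image of `[0,s]^k` under an isometry of `ℝ^k`. -/
def IsCube {k : ℕ} (Q : Set (EuclideanSpace ℝ (Fin k))) (s : ℝ) : Prop :=
  ∃ g : EuclideanSpace ℝ (Fin k) ≃ᵢ EuclideanSpace ℝ (Fin k), Q = g '' {x | ∀ i, 0 ≤ x i ∧ x i ≤ s}

/-- The family `K` can be placed in `Q`: there are isometries `g n` of `ℝ^k` such that the sets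
`g n '' K n` lie in `Q` and are pairwise disjoint. -/
def CanBePlaced {k : ℕ} {ι : Type} (K : ι → Set (EuclideanSpace ℝ (Fin k)))
    (Q : Set (EuclideanSpace ℝ (Fin k))) : Prop :=
  ∃ g : ι → EuclideanSpace ℝ (Fin k) → EuclideanSpace ℝ (Fin k),
    (∀ n, Isometry (g n)) ∧ (∀ n, g n '' K n ⊆ Q) ∧
      ∀ m n, m ≠ n → Disjoint (g m '' K m) (g n '' K n)

/-- Every finite or countably infinite family of convex bodies in `ℝ^k`, each of diameter at most
`a`, with sum of volumes at most `b`, can be placed in some cube of diameter `c` (a cube of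
diameter `c` has side `c / √k`). -/
def Admissible (k : ℕ) (a b c : ℝ) : Prop :=
  0 < c ∧ ∀ (ι : Type) (_ : Countable ι) (K : ι → Set (EuclideanSpace ℝ (Fin k))),
    (∀ n, IsConvexBody (K n)) → (∀ n, Metric.diam (K n) ≤ a) →
      (∑' n, volume (K n)) ≤ ENNReal.ofReal b →
        ∃ Q, IsCube Q (c / Real.sqrt k) ∧ CanBePlaced K Q

/-- `f_k(a,b)`, the infimum of all admissible `c > 0` (in `[-∞,∞]`). -/
noncomputable def f (k : ℕ) (a b : ℝ) : EReal :=
  sInf ((fun c : ℝ => (c : EReal)) '' {c | Admissible k a b c})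

theorem ps_lower_adm (k : ℕ) (hk : 2 ≤ k) (a b c : ℝ) (ha : 0 < a) (hb : 0 < b)
    (h : Admissible k a b c) (t : ℝ) (ht : 0 < t) (hta : t ≤ a / Real.sqrt k)
    (htb : t ≤ b / a ^ (k - 1)) :
    t + Real.sqrt ((k - 1) * (a ^ 2 - t ^ 2)) ≤ c := by
  have hk0 : 0 < k := by omega
  have hkr : (0:ℝ) < k := by exact_mod_cast hk0
  obtain ⟨h1, h2, h3, h4, h5⟩ := ps_body k hk a t ha ht ⟨0, hk0⟩
  obtain ⟨hc, H⟩ := h
  obtain ⟨Q, ⟨g0, hQ⟩, g, hg, hsub, -⟩ := H Unit inferInstance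
    (fun _ => {x : EuclideanSpace ℝ (Fin k) | ‖x‖ ≤ a / 2 ∧ |x ⟨0, hk0⟩| ≤ t / 2})
    (fun _ => ⟨h1, h2, h3⟩) (fun _ => h4) (by
      rw [tsum_fintype]
      simp only [Finset.univ_unique, Finset.sum_const, Finset.card_singleton, one_smul]
      refine h5.trans (ENNReal.ofReal_le_ofReal ?_)
      rwa [le_div_iff₀ (by positivity)] at htb)
  have hs : Real.sqrt k * (c / Real.sqrt k) = c := by
    have : Real.sqrt k ≠ 0 := by positivity
    field_simp
  rw [← hs]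
  refine ps_lower k hk a t _ ha ht hta (fun x => g0.symm (g () x))
    (g0.symm.isometry.comp (hg ())) ⟨0, hk0⟩ ?_
  intro x hx hx0
  have hmem : g () x ∈ Q := hsub () ⟨x, ⟨hx, hx0⟩, rfl⟩
  rw [hQ] at hmem
  obtain ⟨y, hy, hyx⟩ := hmem
  have : g0.symm (g () x) = y := by rw [← hyx]; simp
  intro i
  simp only [this]
  exact hy i

theorem ps_le_f (k : ℕ) (a b x : ℝ) (h : ∀ c, Admissible k a b c → x ≤ c) :
    (x : EReal) ≤ f k a b := by
  refine le_sInf ?_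
  rintro _ ⟨c, hc, rfl⟩
  exact EReal.coe_le_coe_iff.2 (h c hc)

theorem ps_f_le (k : ℕ) (a b x : ℝ) (h : ∀ c, x < c → Admissible k a b c) :
    f k a b ≤ (x : EReal) := by
  refine le_of_forall_gt fun y hy => ?_
  induction y with
  | bot => exact absurd hy (by simp)
  | top =>
    refine lt_of_le_of_lt (sInf_le ⟨x + 1, h _ (by linarith), rfl⟩) (EReal.coe_lt_top _)
  | coe y =>
    have hxy : x < y := by exact_mod_cast hy
    refine lt_of_le_of_lt (sInf_le ⟨(x + y) / 2, h _ (by linarith), rfl⟩) ?_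
    exact EReal.coe_lt_coe_iff.2 (by linarith : (x + y) / 2 < y)

/-- every planar convex body fits in a rectangle -/
theorem ps_box (K : Set (EuclideanSpace ℝ (Fin 2))) (hK : IsConvexBody K) (a : ℝ)
    (hdiam : Metric.diam K ≤ a) :
    ∃ (g : EuclideanSpace ℝ (Fin 2) → EuclideanSpace ℝ (Fin 2)) (d w : ℝ),
      Isometry g ∧ 0 < w ∧ w ≤ d ∧ d ≤ a ∧ d * w ≤ 2 * (volume K).toReal ∧
      ∀ x ∈ K, 0 ≤ g x 0 ∧ g x 0 ≤ d ∧ 0 ≤ g x 1 ∧ g x 1 ≤ w := by
  obtain ⟨hc, hconv, hint⟩ := hK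
  obtain ⟨g, d, w, h, p, q, t, b, hg, hw, hwd, hd, hbox, hp, hq, ht, hb, e1, e2, e3, e4, e5, e6⟩ :=
    ps_normal K hc hint
  refine ⟨g, d, w, hg, hw, hwd, hd ▸ hdiam, ?_, hbox⟩
  have hvol := ps_vol 2 g hg K
  have hcv : Convex ℝ (g '' K) :=
    hconv.affine_image hg.affineIsometryOfStrictConvexSpace.toAffineMap
  have := ps_area2 (g '' K) hcv (by rw [hvol]; exact hc.measure_lt_top.ne)
    d w h (hw.trans_le hwd) hw _ _ _ _ (mem_image_of_mem _ hp) (mem_image_of_mem _ hq)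
    (mem_image_of_mem _ ht) (mem_image_of_mem _ hb) e1 e2 e3 e4 e5 e6 (e2 ▸ (hbox p hp).2.2.1)
    (e2 ▸ (hbox p hp).2.2.2) ⟨(hbox t ht).1, (hbox t ht).2.1⟩ ⟨(hbox b hb).1, (hbox b hb).2.1⟩
  rwa [hvol] at this

/-- the planar upper bound, with parameters -/
theorem ps_upper_adm (a b η ε : ℝ) (ha : 0 < a) (hb : 0 < b) (hη : 0 < η) (hη1 : η < 1)
    (hε : 0 < ε)
    (hfit : (1 + ε) * ((1 - η) * a) +
      2 * ((1 + ε) * (4 * Real.sqrt (2 * b) + 4 * (2 * b) / ((1 - η) * a))) < a) :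
    Admissible 2 a b (a + (1 + ε) * (2 * b / ((1 - η) * a))) := by
  have hη2 : 0 < 1 - η := by linarith
  set c := a + (1 + ε) * (2 * b / ((1 - η) * a)) with hcdef
  have hc : 0 < c := by positivity
  refine ⟨hc, ?_⟩
  intro ι hι K hK hdiam hvol
  obtain ⟨e, he⟩ := exists_injective_nat ι
  choose g d w hg hw hwd hda hdw hbox using fun n => ps_box (K n) (hK n) a (hdiam n)
  have hfin : ∀ n, volume (K n) ≠ ⊤ := fun n => (hK n).1.measure_lt_top.ne
  obtain ⟨x, y, hin, hsep⟩ := ps_pack2 a (2 * b) η ε ha (by positivity) hη hη1 hε (range e)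
    (Function.extend e d 0) (Function.extend e w 0) (by
      rintro _ ⟨i, rfl⟩
      rw [he.extend_apply, he.extend_apply]
      exact ⟨hw i, hwd i, hda i⟩) (by
      intro F hF
      have h1 := Finset.sum_preimage e F he.injOn
        (fun n => Function.extend e d 0 n * Function.extend e w 0 n)
        (fun n hn hn' => absurd (hF n hn) hn')
      rw [← h1]
      calc ∑ i ∈ F.preimage e he.injOn, Function.extend e d 0 (e i) * Function.extend e w 0 (e i)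
          = ∑ i ∈ F.preimage e he.injOn, d i * w i := by
            refine Finset.sum_congr rfl fun i _ => ?_
            rw [he.extend_apply, he.extend_apply]
        _ ≤ ∑ i ∈ F.preimage e he.injOn, 2 * (volume (K i)).toReal :=
            Finset.sum_le_sum fun i _ => hdw i
        _ = 2 * (∑ i ∈ F.preimage e he.injOn, volume (K i)).toReal := by
            rw [← Finset.mul_sum, ENNReal.toReal_sum fun i _ => hfin i]
        _ ≤ 2 * b := by
            have h2 : (∑ i ∈ F.preimage e he.injOn, volume (K i)) ≤ ENNReal.ofReal b :=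
              (ENNReal.sum_le_tsum _).trans hvol
            have h3 := ENNReal.toReal_mono ENNReal.ofReal_ne_top h2
            rw [ENNReal.toReal_ofReal hb.le] at h3
            linarith) hfit
  obtain ⟨-, σ, hσ, hσ2⟩ := ps_diamond c hc
  refine ⟨_, ⟨IsometryEquiv.refl _, rfl⟩, fun n z => σ (g n z + !₂[x (e n), y (e n)]), ?_, ?_, ?_⟩
  · intro n
    exact hσ.comp ((isometry_add_right _).comp (hg n))
  · rintro n _ ⟨z, hz, rfl⟩
    refine ⟨_, ?_, rfl⟩
    obtain ⟨b1, b2, b3, b4⟩ := hbox n z hz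
    have h1 := hin (e n) (mem_range_self n) (g n z 0 + x (e n)) (g n z 1 + y (e n)) (by linarith)
      (by rw [he.extend_apply]; linarith) (by linarith) (by rw [he.extend_apply]; linarith)
    have h2 := hσ2 (g n z + !₂[x (e n), y (e n)]) (by simpa using h1)
    simpa using h2
  · intro m n hmn
    rw [Set.disjoint_left]
    rintro _ ⟨z, hz, rfl⟩ ⟨z', hz', hzz⟩
    have h0 := hσ.injective hzz
    have e0 := congrArg (fun v : EuclideanSpace ℝ (Fin 2) => v 0) h0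
    have e1 := congrArg (fun v : EuclideanSpace ℝ (Fin 2) => v 1) h0
    simp at e0 e1
    obtain ⟨b1, b2, b3, b4⟩ := hbox m z hz
    obtain ⟨c1, c2, c3, c4⟩ := hbox n z' hz'
    have h1 := hsep (e m) (mem_range_self m) (e n) (mem_range_self n) (fun h => hmn (he h))
    rw [he.extend_apply, he.extend_apply, he.extend_apply, he.extend_apply] at h1
    rcases h1 with h1 | h1 | h1 | h1 <;> linarith

/-- the planar upper bound -/
theorem ps_upper (a b : ℝ) (ha : 0 < a) (hb : 0 < b) (hba : b ≤ a ^ 2 / 10000) :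
    f 2 a b ≤ ((a + 2 * b / a + 200 * b * Real.sqrt b / a ^ 2 : ℝ) : EReal) := by
  have key : ∀ y : ℝ, a + 2 * b / a + 200 * b * Real.sqrt b / a ^ 2 < y → f 2 a b ≤ (y : EReal) := by
    intro y hy
    obtain ⟨η, ε, h1, h2, h3, h4, h5⟩ := ps_params a b y ha hb hba hy
    have h6 := ps_upper_adm a b η ε ha hb h1 h2 h3 h4
    have h7 : f 2 a b ≤ ((a + (1 + ε) * (2 * b / ((1 - η) * a)) : ℝ) : EReal) :=
      sInf_le (mem_image_of_mem (fun c : ℝ => (c : EReal)) (show _ ∈ {c | Admissible 2 a b c} from h6))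
    exact h7.trans (EReal.coe_le_coe_iff.2 h5)
  refine le_of_forall_gt fun y hy => ?_
  induction y with
  | bot => exact absurd hy (by simp)
  | top => exact lt_of_le_of_lt (key _ (lt_add_one _)) (EReal.coe_lt_top _)
  | coe y =>
    have hxy := EReal.coe_lt_coe_iff.1 hy
    obtain ⟨z, hz1, hz2⟩ := exists_between hxy
    exact lt_of_le_of_lt (key z hz1) (EReal.coe_lt_coe_iff.2 hz2)

theorem ps_lower2 (a b c : ℝ) (ha : 0 < a) (hb : 0 < b) (hba : b ≤ a ^ 2 / 200)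
    (h : Admissible 2 a b c) : a + 2 * b / a - 13 * b ^ 2 / a ^ 3 ≤ c := by
  have hac : a ≤ c := by
    have h2 : (0:ℝ) < Real.sqrt (2:ℕ) := by positivity
    have ht : 0 < min (a / Real.sqrt (2:ℕ)) (b / a ^ (2 - 1)) := lt_min (by positivity) (by positivity)
    have h1 := ps_lower_adm 2 le_rfl a b c ha hb h _ ht (min_le_left _ _) (min_le_right _ _)
    set t := min (a / Real.sqrt (2:ℕ)) (b / a ^ (2 - 1)) with htdef
    have hta : t ≤ a := by
      refine (min_le_left _ _).trans ?_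
      rw [div_le_iff₀ h2]
      have : 1 ≤ Real.sqrt (2:ℕ) := by
        rw [Real.one_le_sqrt]; norm_num
      nlinarith
    have h3 : a - t ≤ Real.sqrt (((2:ℕ) - 1) * (a ^ 2 - t ^ 2)) := by
      apply Real.le_sqrt_of_sq_le
      push_cast
      nlinarith
    linarith
  by_contra hlt
  push Not at hlt
  have hc2 : c ≤ 1.01 * a := by
    have h1 : 2 * b / a ≤ 0.01 * a := by
      rw [div_le_iff₀ ha]; nlinarith
    have h2 : 0 ≤ 13 * b ^ 2 / a ^ 3 := by positivity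
    linarith
  obtain ⟨hX0, hX⟩ := ps_X0 a c ha hac hc2
  set X0 := a * (1 - 1.1 * ((c - a) / a) ^ 2) with hX0def
  obtain ⟨hc, H⟩ := h
  have hN : ∀ N : ℕ, 1 ≤ N → 2 * b / a * (1 - (c - X0) / X0) / (1 + (2 * b / a / N) / a) ≤
      c * (c - X0) / X0 + 2 * (2 * b / a / N) := by
    intro N hN
    have hNr : (1:ℝ) ≤ N := by exact_mod_cast hN
    have hN0 : (0:ℝ) < N := by linarith
    set w := 2 * b / a / N with hwdef
    have hw : 0 < w := by positivity
    have hwa : w ≤ a := by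
      rw [hwdef, div_div, div_le_iff₀ (by positivity)]
      nlinarith [mul_pos ha ha]
    have hNw : N * w = 2 * b / a := by rw [hwdef]; field_simp
    obtain ⟨r1, r2, r3, r4, r5⟩ := ps_rhombus a w hw hwa
    obtain ⟨Q, ⟨g0, hQ⟩, g, hg, hsub, hdis⟩ := H (Fin N) inferInstance
      (fun _ => {x : EuclideanSpace ℝ (Fin 2) | |x 0| * (2 / a) + |x 1| * (2 / w) ≤ 1})
      (fun _ => ⟨r1, r2, r3⟩) (fun _ => r4) (by
        rw [tsum_fintype]
        simp only [Finset.sum_const, Finset.card_univ, Fintype.card_fin, nsmul_eq_mul]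
        calc (N : ENNReal) * volume {x : EuclideanSpace ℝ (Fin 2) |
              |x 0| * (2 / a) + |x 1| * (2 / w) ≤ 1}
            ≤ (N : ENNReal) * ENNReal.ofReal (a * w / 2) := by gcongr
          _ = ENNReal.ofReal (N * (a * w / 2)) := by
              rw [ENNReal.ofReal_mul (by positivity), ENNReal.ofReal_natCast]
          _ = ENNReal.ofReal b := by
              congr 1
              have : N * (a * w / 2) = a * (N * w) / 2 := by ring
              rw [this, hNw]; field_simp)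
    obtain ⟨⟨ρ, hρ, hρ2⟩, -⟩ := ps_diamond c hc
    have hcube : ∀ n, ∀ x ∈ {x : EuclideanSpace ℝ (Fin 2) | |x 0| * (2 / a) + |x 1| * (2 / w) ≤ 1},
        ∀ i, 0 ≤ g0.symm (g n x) i ∧ g0.symm (g n x) i ≤ c / Real.sqrt 2 := by
      intro n x hx
      have hmem : g n x ∈ Q := hsub n ⟨x, hx, rfl⟩
      rw [hQ] at hmem
      obtain ⟨y, hy, hyx⟩ := hmem
      have : g0.symm (g n x) = y := by rw [← hyx]; simp
      intro i
      rw [this]
      simpa using hy i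
    have := ps_many a w c X0 ha hw hwa hac hc2 hX0 hX N (fun n x => ρ (g0.symm (g n x)))
      (fun n => hρ.comp (g0.symm.isometry.comp (hg n))) (fun n x hx => hρ2 _ (hcube n x hx)) (by
        intro m n hmn x y hx hy hxy
        have e1 := g0.symm.injective (hρ.injective hxy)
        exact Set.disjoint_left.1 (hdis m n hmn) ⟨x, hx, rfl⟩ ⟨y, hy, e1.symm⟩)
    have e2 : (N:ℝ) * (w * (1 - (c - X0) / X0) / (1 + w / a)) =
        2 * b / a * (1 - (c - X0) / X0) / (1 + w / a) := by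
      rw [← hNw]; ring
    rw [e2] at this
    exact this
  have hlim : Tendsto (fun N : ℕ => 2 * b / a / (N:ℝ)) atTop (𝓝 0) :=
    tendsto_const_div_atTop_nhds_zero_nat _
  have hL : Tendsto (fun N : ℕ => 2 * b / a * (1 - (c - X0) / X0) / (1 + (2 * b / a / (N:ℝ)) / a))
      atTop (𝓝 (2 * b / a * (1 - (c - X0) / X0) / (1 + 0 / a))) := by
    refine Tendsto.div tendsto_const_nhds (tendsto_const_nhds.add (hlim.div_const a)) ?_
    simp
  have hR : Tendsto (fun N : ℕ => c * (c - X0) / X0 + 2 * (2 * b / a / (N:ℝ)))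
      atTop (𝓝 (c * (c - X0) / X0 + 2 * 0)) :=
    tendsto_const_nhds.add (hlim.const_mul 2)
  have hfin := le_of_tendsto_of_tendsto hL hR
    (Filter.eventually_atTop.2 ⟨1, fun N hN' => hN N hN'⟩)
  simp only [zero_div, add_zero, mul_zero, div_one] at hfin
  exact ps_alg a b c X0 ha hb hba hac hlt hX0def hfin

/-- class of an antitone family -/
theorem ps_cls (k : ℕ) (s : Fin k → ℝ) (hs : Antitone s) (μ : ℝ) :
    ∃ j : ℕ, j ≤ k ∧ (∀ l : Fin k, (l : ℕ) < j → μ ≤ s l) ∧ (∀ l : Fin k, j ≤ (l : ℕ) → s l < μ) := by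
  classical
  have hex : ∃ j : ℕ, ∀ l : Fin k, j ≤ (l : ℕ) → s l < μ := ⟨k, fun l hl => absurd l.2 (by omega)⟩
  refine ⟨Nat.find hex, Nat.find_min' hex (fun l hl => absurd l.2 (by omega)), ?_,
    Nat.find_spec hex⟩
  intro l hl
  have h1 := Nat.find_min hex hl
  push Not at h1
  obtain ⟨l', h2, h3⟩ := h1
  exact h3.trans (hs (by exact_mod_cast h2))

/-- in all dimensions `f_k(a,b) ≤ √(k-1) a + C b^(1/k)` -/
theorem ps_upper_unif (k : ℕ) (hk : 2 ≤ k) : ∃ C : ℝ, 0 < C ∧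
    ∀ a b : ℝ, 0 < a → 0 < b →
      Admissible k a b (Real.sqrt ((k : ℝ) - 1) * a + C * b ^ ((1:ℝ) / k)) := by
  have hk2 : (2:ℝ) ≤ k := by exact_mod_cast hk
  have hk0 : (0:ℝ) < k := by linarith
  have hk1 : (0:ℝ) < (k:ℝ) - 1 := by linarith
  choose V hV HC using fun j : Fin k => ps_class k j j.2
  obtain ⟨W, hW0, hW, hW1⟩ : ∃ W : ℝ, 0 < W ∧ (∀ j, W ≤ V j) ∧ W < 1 := by
    have hne : (Finset.univ : Finset (Fin k)).Nonempty := ⟨⟨0, by omega⟩, Finset.mem_univ _⟩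
    refine ⟨min (Finset.univ.inf' hne V) (1 / 2), ?_, ?_, ?_⟩
    · refine lt_min ?_ (by norm_num)
      rw [Finset.lt_inf'_iff]
      exact fun j _ => hV j
    · intro j
      exact (min_le_left _ _).trans (Finset.inf'_le _ (Finset.mem_univ j))
    · refine lt_of_le_of_lt (min_le_right _ _) (by norm_num)
  set D : ℝ := 2 * k * (1 / W) ^ ((1:ℝ) / k) with hD
  have hD0 : 0 < D := by positivity
  obtain ⟨C, hC⟩ : ∃ C : ℝ, C = 2 * Real.sqrt k * ((4 * k + 1) * D) := ⟨_, rfl⟩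
  have hCp : 0 < C := by rw [hC]; positivity
  refine ⟨C, hCp, ?_⟩
  intro a b ha hb
  obtain ⟨μ, hμdef⟩ : ∃ μ : ℝ, μ = D * b ^ ((1:ℝ) / k) := ⟨_, rfl⟩
  have hμ0 : 0 < μ := by rw [hμdef]; positivity
  have hμk : μ ^ k = (2 * (k:ℝ)) ^ k * b / W := by
    have hrp : ∀ x : ℝ, 0 ≤ x → (x ^ ((1:ℝ) / k)) ^ k = x := by
      intro x hx
      rw [← Real.rpow_natCast, ← Real.rpow_mul hx, one_div, inv_mul_cancel₀ hk0.ne', Real.rpow_one]
    rw [hμdef, hD, mul_pow, mul_pow, hrp _ (by positivity), hrp _ hb.le]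
    ring
  set κ := Real.sqrt (((k:ℝ) - 1) / k) with hκ
  have hκ0 : 0 < κ := by positivity
  set H := a / 2 * κ + (4 * k + 1) * μ with hHdef
  have hH0 : 0 < H := by positivity
  have hμ2 : 4 * k * μ < H := by
    have : 0 < a / 2 * κ := by positivity
    rw [hHdef]; linarith
  have hcl : ∀ j : Fin k, a / 2 * Real.sqrt (((j:ℕ) : ℝ) / (((j:ℕ):ℝ) + 1)) + 2 * μ ≤ H := by
    intro j
    have hj : ((j:ℕ):ℝ) + 1 ≤ k := by exact_mod_cast j.2
    have h1 : Real.sqrt (((j:ℕ) : ℝ) / (((j:ℕ):ℝ) + 1)) ≤ κ := by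
      rw [hκ]
      apply Real.sqrt_le_sqrt
      rw [div_le_div_iff₀ (by positivity) hk0]
      nlinarith
    have h2 : a / 2 * Real.sqrt (((j:ℕ) : ℝ) / (((j:ℕ):ℝ) + 1)) ≤ a / 2 * κ := by gcongr
    have h3 : 2 * μ ≤ (4 * k + 1) * μ := by
      have : (2:ℝ) ≤ 4 * k + 1 := by linarith
      gcongr
    rw [hHdef]
    linarith
  refine ⟨by positivity, ?_⟩
  intro ι hι K hK hdiam hvol
  obtain ⟨e, he⟩ := exists_injective_nat ι
  choose g s hg hs hanti hprod hbox using fun n =>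
    ps_boxk k (by omega) (K n) (hK n).1 (hK n).2.1 (hK n).2.2 a (hdiam n)
  choose cl hcl1 hcl2 hcl3 using fun n => ps_cls k (s n) (hanti n) μ
  have hfin : ∀ n, volume (K n) ≠ ⊤ := fun n => (hK n).1.measure_lt_top.ne
  have hsumall : ∀ F : Finset ι, ∑ n ∈ F, ∏ i, s n i ≤ W * μ ^ k := by
    intro F
    calc ∑ n ∈ F, ∏ i, s n i
        ≤ ∑ n ∈ F, (2 * (k:ℝ)) ^ k * (volume (K n)).toReal :=
          Finset.sum_le_sum fun n _ => hprod n
      _ = (2 * (k:ℝ)) ^ k * (∑ n ∈ F, volume (K n)).toReal := by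
          rw [← Finset.mul_sum, ENNReal.toReal_sum fun i _ => hfin i]
      _ ≤ (2 * (k:ℝ)) ^ k * b := by
          have h2 : (∑ i ∈ F, volume (K i)) ≤ ENNReal.ofReal b :=
            (ENNReal.sum_le_tsum _).trans hvol
          have h3 := ENNReal.toReal_mono ENNReal.ofReal_ne_top h2
          rw [ENNReal.toReal_ofReal hb.le] at h3
          gcongr
      _ ≤ W * μ ^ k := by
          rw [hμk]
          exact le_of_eq (by field_simp)
  have hclk : ∀ n, cl n < k := by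
    intro n
    refine lt_of_le_of_ne (hcl1 n) fun h => ?_
    have h1 : μ ^ k ≤ ∏ i, s n i := by
      calc μ ^ k = ∏ _i : Fin k, μ := by simp
        _ ≤ ∏ i, s n i := Finset.prod_le_prod (fun _ _ => hμ0.le)
            fun i _ => hcl2 n i (by rw [h]; exact i.2)
    have h2 := hsumall {n}
    rw [Finset.sum_singleton] at h2
    have h3 : 0 < μ ^ k := by positivity
    nlinarith
  have hΦ : ∀ j : Fin k, ∃ Φ : ℕ → EuclideanSpace ℝ (Fin k) → EuclideanSpace ℝ (Fin k),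
        (∀ n ∈ {m | ∃ i, e i = m ∧ cl i = j}, Isometry (Φ n) ∧
          ∀ x ∈ Function.extend e K (fun _ => ∅) n, (∀ i, |Φ n x i| ≤ H) ∧
          ((k : ℝ) - 1 - (j:ℕ)) * H - 2 * k * μ ≤ ∑ i, Φ n x i ∧
          ∑ i, Φ n x i ≤ ((k : ℝ) - 1 - (j:ℕ)) * H + 2 * k * μ) ∧
        ∀ p ∈ {m | ∃ i, e i = m ∧ cl i = j}, ∀ q ∈ {m | ∃ i, e i = m ∧ cl i = j}, p ≠ q →
          Disjoint (Φ p '' Function.extend e K (fun _ => ∅) p)
            (Φ q '' Function.extend e K (fun _ => ∅) q) := by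
    intro j
    refine HC j a H μ ha hμ0 (hcl j) {m | ∃ i, e i = m ∧ cl i = j} (Function.extend e K (fun _ => ∅))
      (Function.extend e g (fun _ => id)) (Function.extend e s (fun _ => 0)) ?_ ?_
    · rintro _ ⟨n, rfl, hn⟩
      rw [he.extend_apply, he.extend_apply, he.extend_apply]
      exact ⟨(hK n).1, (hK n).2.2.mono interior_subset, hdiam n, hg n, hbox n,
        fun i => (hs n i).1, hanti n, fun i hi => hcl2 n i (by rw [hn]; exact hi),
        fun i hi => hcl3 n i (by rw [hn]; exact hi)⟩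
    · intro F hF
      have h1 := Finset.sum_preimage e F he.injOn
        (fun n => ∏ i, Function.extend e s (fun _ => 0) n i)
        (fun n hn hn' => absurd (by obtain ⟨i, hi, _⟩ := hF n hn; exact ⟨i, hi⟩) hn')
      rw [← h1]
      refine le_trans (le_of_eq ?_) ((hsumall (F.preimage e he.injOn)).trans
        (mul_le_mul_of_nonneg_right (hW j) (by positivity)))
      refine Finset.sum_congr rfl fun n _ => ?_
      rw [he.extend_apply]
  choose Φ hΦ1 hΦ2 using hΦ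
  have hΦ3 : ∀ n, Isometry (Φ ⟨cl n, hclk n⟩ (e n)) ∧ ∀ x ∈ K n,
      (∀ i, |Φ ⟨cl n, hclk n⟩ (e n) x i| ≤ H) ∧
      ((k : ℝ) - 1 - (cl n : ℕ)) * H - 2 * k * μ ≤ ∑ i, Φ ⟨cl n, hclk n⟩ (e n) x i ∧
      ∑ i, Φ ⟨cl n, hclk n⟩ (e n) x i ≤ ((k : ℝ) - 1 - (cl n : ℕ)) * H + 2 * k * μ := by
    intro n
    have := hΦ1 ⟨cl n, hclk n⟩ (e n) ⟨n, rfl, rfl⟩
    rw [he.extend_apply] at this
    exact this
  have hside : (Real.sqrt ((k : ℝ) - 1) * a + C * b ^ ((1:ℝ) / k)) / Real.sqrt k = 2 * H := by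
    have h1 : (0:ℝ) < Real.sqrt k := Real.sqrt_pos.2 hk0
    rw [hHdef, hκ, Real.sqrt_div hk1.le, hC, hμdef]
    field_simp
  refine ⟨_, ⟨IsometryEquiv.refl _, rfl⟩,
    fun n z => Φ ⟨cl n, hclk n⟩ (e n) z + WithLp.toLp 2 (fun _ => H), ?_, ?_, ?_⟩
  · intro n
    exact (isometry_add_right _).comp (hΦ3 n).1
  · rintro n _ ⟨z, hz, rfl⟩
    refine ⟨_, ?_, rfl⟩
    intro i
    have h1 := ((hΦ3 n).2 z hz).1 i
    rw [abs_le] at h1
    rw [hside]
    show 0 ≤ Φ ⟨cl n, hclk n⟩ (e n) z i + H ∧ Φ ⟨cl n, hclk n⟩ (e n) z i + H ≤ 2 * H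
    constructor <;> linarith [h1.1, h1.2]
  · intro p q hpq
    rw [Set.disjoint_left]
    rintro _ ⟨z, hz, rfl⟩ ⟨z', hz', hzz⟩
    have h0 : Φ ⟨cl q, hclk q⟩ (e q) z' = Φ ⟨cl p, hclk p⟩ (e p) z := add_right_cancel hzz
    obtain ⟨-, p2, p3⟩ := (hΦ3 p).2 z hz
    obtain ⟨-, q2, q3⟩ := (hΦ3 q).2 z' hz'
    rw [h0] at q2 q3
    rcases lt_trichotomy (cl p) (cl q) with hlt | heq | hgt
    · have h1 : (cl p : ℝ) + 1 ≤ cl q := by exact_mod_cast hlt
      have h2 : 0 ≤ H * ((cl q : ℝ) - cl p - 1) := mul_nonneg hH0.le (by linarith)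
      linarith [p2, q3, h2, hμ2]
    · have h1 := hΦ2 ⟨cl p, hclk p⟩ (e p) ⟨p, rfl, rfl⟩ (e q) ⟨q, rfl, heq.symm⟩
        (fun h => hpq (he h))
      rw [he.extend_apply, he.extend_apply] at h1
      have h2 : (⟨cl q, hclk q⟩ : Fin k) = ⟨cl p, hclk p⟩ := Fin.ext heq.symm
      rw [h2] at h0
      exact Set.disjoint_left.1 h1 ⟨z, hz, rfl⟩ ⟨z', hz', h0⟩
    · have h1 : (cl q : ℝ) + 1 ≤ cl p := by exact_mod_cast hgt
      have h2 : 0 ≤ H * ((cl p : ℝ) - cl q - 1) := mul_nonneg hH0.le (by linarith)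
      linarith [q2, p3, h2, hμ2]

/-- in all dimensions `f_k(a,b) ≤ √(k-1) a + C b / a^(k-1)` for small `b / a^k` -/
theorem ps_upper_lin (k : ℕ) (hk : 2 ≤ k) : ∃ C c : ℝ, 0 < C ∧ 0 < c ∧
    ∀ a b : ℝ, 0 < a → 0 < b → b ≤ c * a ^ k →
      Admissible k a b (Real.sqrt ((k : ℝ) - 1) * a + C * (b / a ^ (k - 1))) := by
  have hk2 : (2:ℝ) ≤ k := by exact_mod_cast hk
  have hk0 : (0:ℝ) < k := by linarith
  have hk1 : (0:ℝ) < (k:ℝ) - 1 := by linarith
  choose V hV HC using fun j : Fin k => ps_class k j j.2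
  obtain ⟨W, hW0, hW, hW1⟩ : ∃ W : ℝ, 0 < W ∧ (∀ j, W ≤ V j) ∧ W < 1 := by
    have hne : (Finset.univ : Finset (Fin k)).Nonempty := ⟨⟨0, by omega⟩, Finset.mem_univ _⟩
    refine ⟨min (Finset.univ.inf' hne V) (1 / 2), ?_, ?_, ?_⟩
    · refine lt_min ?_ (by norm_num)
      rw [Finset.lt_inf'_iff]
      exact fun j _ => hV j
    · intro j
      exact (min_le_left _ _).trans (Finset.inf'_le _ (Finset.mem_univ j))
    · refine lt_of_le_of_lt (min_le_right _ _) (by norm_num)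
  set κ := Real.sqrt (((k:ℝ) - 1) / k) with hκ
  have hκ0 : 0 < κ := by positivity
  set κ' := Real.sqrt (((k:ℝ) - 2) / ((k:ℝ) - 1)) with hκ'
  have hκκ : κ' < κ := by
    rw [hκ, hκ']
    apply Real.sqrt_lt_sqrt
    · exact div_nonneg (by linarith) hk1.le
    · rw [div_lt_div_iff₀ hk1 hk0]
      nlinarith
  obtain ⟨m0, hm0, hm1, hm2⟩ : ∃ m0 : ℝ, 0 < m0 ∧ 4 * m0 ≤ κ - κ' ∧ 16 * k * m0 ≤ κ := by
    refine ⟨min ((κ - κ') / 4) (κ / (16 * k)), ?_, ?_, ?_⟩
    · refine lt_min ?_ (by positivity)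
      linarith
    · have := min_le_left ((κ - κ') / 4) (κ / (16 * k))
      linarith
    · have h1 := min_le_right ((κ - κ') / 4) (κ / (16 * k))
      calc 16 * k * min ((κ - κ') / 4) (κ / (16 * k)) ≤ 16 * k * (κ / (16 * k)) := by gcongr
        _ = κ := by field_simp
  obtain ⟨C, hC⟩ : ∃ C : ℝ, C = 4 * Real.sqrt k * ((2 * (k:ℝ)) ^ k / m0 ^ (k - 1)) := ⟨_, rfl⟩
  refine ⟨C, W * m0 ^ k / (2 * (k:ℝ)) ^ k, by rw [hC]; positivity, by positivity, ?_⟩
  intro a b ha hb hba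
  obtain ⟨μ, hμdef⟩ : ∃ μ : ℝ, μ = m0 * a := ⟨_, rfl⟩
  have hμ0 : 0 < μ := by rw [hμdef]; positivity
  obtain ⟨Wt, hWt⟩ : ∃ Wt : ℝ, Wt = (2 * (k:ℝ)) ^ k * b := ⟨_, rfl⟩
  have hWt0 : 0 < Wt := by rw [hWt]; positivity
  have hWtle : Wt ≤ W * μ ^ k := by
    rw [hWt, hμdef]
    have hmp : (m0 * a) ^ k = m0 ^ k * a ^ k := mul_pow _ _ _
    rw [hmp]
    have h1 : (2 * (k:ℝ)) ^ k * b ≤ (2 * (k:ℝ)) ^ k * (W * m0 ^ k / (2 * (k:ℝ)) ^ k * a ^ k) := by
      gcongr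
    refine h1.trans (le_of_eq ?_)
    field_simp
  obtain ⟨T, hT⟩ : ∃ T : ℝ, T = Wt / μ ^ (k - 1) := ⟨_, rfl⟩
  have hT0 : 0 < T := by rw [hT]; positivity
  have hTμ : T ≤ μ := by
    rw [hT, div_le_iff₀ (by positivity)]
    have h1 : μ * μ ^ (k - 1) = μ ^ k := by
      rw [← pow_succ']
      congr 1
      omega
    rw [h1]
    have h2 : 0 < μ ^ k := by positivity
    nlinarith
  set H := a / 2 * κ + 2 * T with hHdef
  have hH0 : 0 < H := by positivity
  have hμ2 : 4 * k * μ < H := by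
    have h1 : 4 * k * μ = (16 * k * m0) * a / 4 := by rw [hμdef]; ring
    have h2 : (16 * k * m0) * a ≤ κ * a := by gcongr
    have h3 : 0 < κ * a := by positivity
    rw [h1, hHdef]
    linarith
  have hcl : ∀ j : Fin k, (j:ℕ) ≠ k - 1 →
      a / 2 * Real.sqrt (((j:ℕ) : ℝ) / (((j:ℕ):ℝ) + 1)) + 2 * μ ≤ H := by
    intro j hjk
    have hj : ((j:ℕ):ℝ) + 2 ≤ k := by
      have : (j:ℕ) + 2 ≤ k := by have := j.2; omega
      exact_mod_cast this
    have h1 : Real.sqrt (((j:ℕ) : ℝ) / (((j:ℕ):ℝ) + 1)) ≤ κ' := by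
      rw [hκ']
      apply Real.sqrt_le_sqrt
      rw [div_le_div_iff₀ (by positivity) hk1]
      nlinarith
    have h2 : a / 2 * Real.sqrt (((j:ℕ) : ℝ) / (((j:ℕ):ℝ) + 1)) ≤ a / 2 * κ' := by gcongr
    have h3 : 2 * μ ≤ a / 2 * (κ - κ') := by
      rw [hμdef]
      nlinarith
    rw [hHdef]
    nlinarith
  refine ⟨by rw [hC]; positivity, ?_⟩
  intro ι hι K hK hdiam hvol
  obtain ⟨e, he⟩ := exists_injective_nat ι
  choose g s hg hs hanti hprod hbox using fun n =>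
    ps_boxk k (by omega) (K n) (hK n).1 (hK n).2.1 (hK n).2.2 a (hdiam n)
  choose cl hcl1 hcl2 hcl3 using fun n => ps_cls k (s n) (hanti n) μ
  have hfin : ∀ n, volume (K n) ≠ ⊤ := fun n => (hK n).1.measure_lt_top.ne
  have hsumall : ∀ F : Finset ι, ∑ n ∈ F, ∏ i, s n i ≤ Wt := by
    intro F
    calc ∑ n ∈ F, ∏ i, s n i
        ≤ ∑ n ∈ F, (2 * (k:ℝ)) ^ k * (volume (K n)).toReal :=
          Finset.sum_le_sum fun n _ => hprod n
      _ = (2 * (k:ℝ)) ^ k * (∑ n ∈ F, volume (K n)).toReal := by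
          rw [← Finset.mul_sum, ENNReal.toReal_sum fun i _ => hfin i]
      _ ≤ (2 * (k:ℝ)) ^ k * b := by
          have h2 : (∑ i ∈ F, volume (K i)) ≤ ENNReal.ofReal b :=
            (ENNReal.sum_le_tsum _).trans hvol
          have h3 := ENNReal.toReal_mono ENNReal.ofReal_ne_top h2
          rw [ENNReal.toReal_ofReal hb.le] at h3
          gcongr
      _ = Wt := hWt.symm
  have hclk : ∀ n, cl n < k := by
    intro n
    refine lt_of_le_of_ne (hcl1 n) fun h => ?_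
    have h1 : μ ^ k ≤ ∏ i, s n i := by
      calc μ ^ k = ∏ _i : Fin k, μ := by simp
        _ ≤ ∏ i, s n i := Finset.prod_le_prod (fun _ _ => hμ0.le)
            fun i _ => hcl2 n i (by rw [h]; exact i.2)
    have h2 := hsumall {n}
    rw [Finset.sum_singleton] at h2
    have h3 : 0 < μ ^ k := by positivity
    nlinarith
  have hΦ : ∀ j : Fin k, ∃ Φ : ℕ → EuclideanSpace ℝ (Fin k) → EuclideanSpace ℝ (Fin k),
        (∀ n ∈ {m | ∃ i, e i = m ∧ cl i = j}, Isometry (Φ n) ∧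
          ∀ x ∈ Function.extend e K (fun _ => ∅) n, (∀ i, |Φ n x i| ≤ H) ∧
          ((k : ℝ) - 1 - (j:ℕ)) * H - 2 * k * μ ≤ ∑ i, Φ n x i ∧
          ∑ i, Φ n x i ≤ ((k : ℝ) - 1 - (j:ℕ)) * H + 2 * k * μ) ∧
        ∀ p ∈ {m | ∃ i, e i = m ∧ cl i = j}, ∀ q ∈ {m | ∃ i, e i = m ∧ cl i = j}, p ≠ q →
          Disjoint (Φ p '' Function.extend e K (fun _ => ∅) p)
            (Φ q '' Function.extend e K (fun _ => ∅) q) := by
    intro j
    have hsumj : ∀ F : Finset ℕ, (∀ n ∈ F, n ∈ {m | ∃ i, e i = m ∧ cl i = j}) →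
        ∑ n ∈ F, ∏ i, Function.extend e s (fun _ => 0) n i ≤ Wt := by
      intro F hF
      have h1 := Finset.sum_preimage e F he.injOn
        (fun n => ∏ i, Function.extend e s (fun _ => 0) n i)
        (fun n hn hn' => absurd (by obtain ⟨i, hi, _⟩ := hF n hn; exact ⟨i, hi⟩) hn')
      rw [← h1]
      refine le_trans (le_of_eq ?_) (hsumall (F.preimage e he.injOn))
      refine Finset.sum_congr rfl fun n _ => ?_
      rw [he.extend_apply]
    by_cases hjk : (j:ℕ) = k - 1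
    · obtain ⟨Φ, hΦa, hΦb⟩ := ps_class_flat k (by omega) a H μ Wt ha hμ0 hWt0
        (by rw [← hκ, ← hT]) {m | ∃ i, e i = m ∧ cl i = j}
        (Function.extend e K (fun _ => ∅)) (Function.extend e g (fun _ => id))
        (Function.extend e s (fun _ => 0)) (by
          rintro _ ⟨n, rfl, hn⟩
          rw [he.extend_apply, he.extend_apply, he.extend_apply]
          exact ⟨(hK n).1, (hK n).2.2.mono interior_subset, hdiam n, hg n, hbox n,
            fun i => (hs n i).1, fun i hi => hcl2 n i (by rw [hn, hjk]; exact hi)⟩) hsumj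
      refine ⟨Φ, fun n hn => ⟨(hΦa n hn).1, fun x hx => ?_⟩, hΦb⟩
      obtain ⟨c1, c2, c3⟩ := (hΦa n hn).2 x hx
      have hjr : ((j:ℕ):ℝ) = (k:ℝ) - 1 := by
        rw [hjk, Nat.cast_sub (by omega)]
        simp
      have h4 : ((k:ℝ) - 1 - ((j:ℕ):ℝ)) * H = 0 := by rw [hjr]; ring
      have h5 : Real.sqrt k ≤ k := by
        rw [Real.sqrt_le_left hk0.le]
        nlinarith
      have h6 : 2 * Real.sqrt k * (Wt / μ ^ (k - 1)) ≤ 2 * k * μ := by
        rw [← hT]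
        gcongr
      refine ⟨c1, ?_, ?_⟩
      · rw [h4]
        have : 0 ≤ 2 * k * μ := by positivity
        linarith
      · rw [h4]
        linarith
    · refine HC j a H μ ha hμ0 (hcl j hjk) {m | ∃ i, e i = m ∧ cl i = j}
        (Function.extend e K (fun _ => ∅))
        (Function.extend e g (fun _ => id)) (Function.extend e s (fun _ => 0)) ?_ ?_
      · rintro _ ⟨n, rfl, hn⟩
        rw [he.extend_apply, he.extend_apply, he.extend_apply]
        exact ⟨(hK n).1, (hK n).2.2.mono interior_subset, hdiam n, hg n, hbox n,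
          fun i => (hs n i).1, hanti n, fun i hi => hcl2 n i (by rw [hn]; exact hi),
          fun i hi => hcl3 n i (by rw [hn]; exact hi)⟩
      · intro F hF
        exact (hsumj F hF).trans (hWtle.trans (mul_le_mul_of_nonneg_right (hW j) (by positivity)))
  choose Φ hΦ1 hΦ2 using hΦ
  have hΦ3 : ∀ n, Isometry (Φ ⟨cl n, hclk n⟩ (e n)) ∧ ∀ x ∈ K n,
      (∀ i, |Φ ⟨cl n, hclk n⟩ (e n) x i| ≤ H) ∧
      ((k : ℝ) - 1 - (cl n : ℕ)) * H - 2 * k * μ ≤ ∑ i, Φ ⟨cl n, hclk n⟩ (e n) x i ∧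
      ∑ i, Φ ⟨cl n, hclk n⟩ (e n) x i ≤ ((k : ℝ) - 1 - (cl n : ℕ)) * H + 2 * k * μ := by
    intro n
    have := hΦ1 ⟨cl n, hclk n⟩ (e n) ⟨n, rfl, rfl⟩
    rw [he.extend_apply] at this
    exact this
  have hside : (Real.sqrt ((k : ℝ) - 1) * a + C * (b / a ^ (k - 1))) / Real.sqrt k = 2 * H := by
    have h1 : (0:ℝ) < Real.sqrt k := Real.sqrt_pos.2 hk0
    rw [hHdef, hκ, Real.sqrt_div hk1.le, hC, hT, hWt, hμdef, mul_pow]
    field_simp
    ring
  refine ⟨_, ⟨IsometryEquiv.refl _, rfl⟩,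
    fun n z => Φ ⟨cl n, hclk n⟩ (e n) z + WithLp.toLp 2 (fun _ => H), ?_, ?_, ?_⟩
  · intro n
    exact (isometry_add_right _).comp (hΦ3 n).1
  · rintro n _ ⟨z, hz, rfl⟩
    refine ⟨_, ?_, rfl⟩
    intro i
    have h1 := ((hΦ3 n).2 z hz).1 i
    rw [abs_le] at h1
    rw [hside]
    show 0 ≤ Φ ⟨cl n, hclk n⟩ (e n) z i + H ∧ Φ ⟨cl n, hclk n⟩ (e n) z i + H ≤ 2 * H
    constructor <;> linarith [h1.1, h1.2]
  · intro p q hpq
    rw [Set.disjoint_left]
    rintro _ ⟨z, hz, rfl⟩ ⟨z', hz', hzz⟩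
    have h0 : Φ ⟨cl q, hclk q⟩ (e q) z' = Φ ⟨cl p, hclk p⟩ (e p) z := add_right_cancel hzz
    obtain ⟨-, p2, p3⟩ := (hΦ3 p).2 z hz
    obtain ⟨-, q2, q3⟩ := (hΦ3 q).2 z' hz'
    rw [h0] at q2 q3
    rcases lt_trichotomy (cl p) (cl q) with hlt | heq | hgt
    · have h1 : (cl p : ℝ) + 1 ≤ cl q := by exact_mod_cast hlt
      have h2 : 0 ≤ H * ((cl q : ℝ) - cl p - 1) := mul_nonneg hH0.le (by linarith)
      linarith [p2, q3, h2, hμ2]
    · have h1 := hΦ2 ⟨cl p, hclk p⟩ (e p) ⟨p, rfl, rfl⟩ (e q) ⟨q, rfl, heq.symm⟩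
        (fun h => hpq (he h))
      rw [he.extend_apply, he.extend_apply] at h1
      have h2 : (⟨cl q, hclk q⟩ : Fin k) = ⟨cl p, hclk p⟩ := Fin.ext heq.symm
      rw [h2] at h0
      exact Set.disjoint_left.1 h1 ⟨z, hz, rfl⟩ ⟨z', hz', h0⟩
    · have h1 : (cl q : ℝ) + 1 ≤ cl p := by exact_mod_cast hgt
      have h2 : 0 ≤ H * ((cl p : ℝ) - cl q - 1) := mul_nonneg hH0.le (by linarith)
      linarith [q2, p3, h2, hμ2]

theorem ps_sqrt_le (k a t : ℝ) (hk : 2 ≤ k) (ha : 0 < a) (ht : 0 < t) (hta : t ≤ a / Real.sqrt k) :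
    Real.sqrt (k - 1) * a ≤ t + Real.sqrt ((k - 1) * (a ^ 2 - t ^ 2)) := by
  have hk1 : 1 ≤ Real.sqrt (k - 1) := by rw [Real.one_le_sqrt]; linarith
  have hk2 : Real.sqrt (k - 1) ^ 2 = k - 1 := Real.sq_sqrt (by linarith)
  have hkp : 0 < Real.sqrt k := Real.sqrt_pos.2 (by linarith)
  have hks : Real.sqrt k ^ 2 = k := Real.sq_sqrt (by linarith)
  rw [le_div_iff₀ hkp] at hta
  have h0 : 0 ≤ Real.sqrt (k - 1) * a - t := by
    have : t ≤ a := by
      have : 1 ≤ Real.sqrt k := by rw [Real.one_le_sqrt]; linarith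
      nlinarith
    nlinarith
  have h1 : Real.sqrt (k - 1) * a - t ≤ Real.sqrt ((k - 1) * (a ^ 2 - t ^ 2)) := by
    apply Real.le_sqrt_of_sq_le
    -- (k-1)a² - 2√(k-1) a t + t² ≤ (k-1)(a²-t²)  iff  k t ≤ 2 √(k-1) a
    have h2 : Real.sqrt k ≤ 2 * Real.sqrt (k - 1) := by
      apply Real.sqrt_le_iff.2
      constructor
      · positivity
      · nlinarith
    have h3 : k * t ≤ 2 * Real.sqrt (k - 1) * a := by
      calc k * t = Real.sqrt k * (t * Real.sqrt k) := by nlinarith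
        _ ≤ Real.sqrt k * a := by gcongr
        _ ≤ 2 * Real.sqrt (k - 1) * a := by gcongr
    nlinarith [mul_le_mul_of_nonneg_left h3 ht.le]
  linarith

/-- two-sided bound in all dimensions -/
theorem ps_two_sided (k : ℕ) (hk : 2 ≤ k) : ∃ C : ℝ, ∀ a b : ℝ, 0 < a → 0 < b →
    ((Real.sqrt ((k:ℝ) - 1) * a : ℝ) : EReal) ≤ f k a b ∧
    f k a b ≤ ((Real.sqrt ((k:ℝ) - 1) * a + C * b ^ ((1:ℝ) / k) : ℝ) : EReal) := by
  have hk2 : (2:ℝ) ≤ k := by exact_mod_cast hk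
  have hk0 : (0:ℝ) < k := by linarith
  obtain ⟨C, hC, H⟩ := ps_upper_unif k hk
  refine ⟨C, fun a b ha hb => ⟨?_, ?_⟩⟩
  · refine ps_le_f k a b _ fun c hc => ?_
    have ht : 0 < min (a / Real.sqrt k) (b / a ^ (k - 1)) := lt_min (by positivity) (by positivity)
    exact (ps_sqrt_le k a _ hk2 ha ht (min_le_left _ _)).trans
      (ps_lower_adm k hk a b c ha hb hc _ ht (min_le_left _ _) (min_le_right _ _))
  · exact sInf_le (mem_image_of_mem (fun c : ℝ => (c : EReal))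
      (show _ ∈ {c | Admissible k a b c} from H a b ha hb))

/-- the limit of `f k a b` as `b → 0` -/
theorem ps_limit (k : ℕ) (hk : 2 ≤ k) (a : ℝ) (ha : 0 < a) :
    Tendsto (fun b : ℝ => f k a b) (𝓝[>] 0) (𝓝 ((Real.sqrt ((k:ℝ) - 1) * a : ℝ) : EReal)) := by
  obtain ⟨C, H⟩ := ps_two_sided k hk
  have hk0 : (0:ℝ) < k := by exact_mod_cast (by omega : 0 < k)
  refine tendsto_of_tendsto_of_tendsto_of_le_of_le' tendsto_const_nhds (h := fun b : ℝ =>
    ((Real.sqrt ((k:ℝ) - 1) * a + C * b ^ ((1:ℝ) / k) : ℝ) : EReal)) ?_ ?_ ?_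
  · refine (continuous_coe_real_ereal.tendsto _).comp ?_
    have h1 : Tendsto (fun b : ℝ => b ^ ((1:ℝ) / k)) (𝓝[>] 0) (𝓝 0) := by
      have h2 : ContinuousAt (fun b : ℝ => b ^ ((1:ℝ) / k)) 0 :=
        Real.continuousAt_rpow_const _ _ (Or.inr (by positivity))
      have h3 := h2.tendsto
      rw [Real.zero_rpow (by positivity)] at h3
      exact h3.mono_left nhdsWithin_le_nhds
    have h4 := (tendsto_const_nhds (x := Real.sqrt ((k:ℝ) - 1) * a)).add (h1.const_mul C)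
    simpa using h4
  · filter_upwards [self_mem_nhdsWithin] with b hb
    exact (H a b ha hb).1
  · filter_upwards [self_mem_nhdsWithin] with b hb
    exact (H a b ha hb).2

/-- the lower bound to first order -/
theorem ps_low_lin (k : ℕ) (hk : 2 ≤ k) (a b : ℝ) (ha : 0 < a) (hb : 0 < b)
    (hba : b ≤ 1 / (2 * k) * a ^ k) :
    ((Real.sqrt ((k:ℝ) - 1) * a + b / a ^ (k - 1) / 2 : ℝ) : EReal) ≤ f k a b := by
  have hk2 : (2:ℝ) ≤ k := by exact_mod_cast hk
  have hk0 : (0:ℝ) < k := by linarith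
  refine ps_le_f k a b _ fun c hc => ?_
  obtain ⟨t, ht⟩ : ∃ t : ℝ, t = b / a ^ (k - 1) := ⟨_, rfl⟩
  have ht0 : 0 < t := by rw [ht]; positivity
  have hta : 2 * k * t ≤ a := by
    have h1 : a * a ^ (k - 1) = a ^ k := by
      rw [← pow_succ']
      congr 1
      omega
    rw [ht]
    have h2 : 2 * k * (b / a ^ (k - 1)) = 2 * k * b / a ^ (k - 1) := by ring
    rw [h2, div_le_iff₀ (by positivity), h1]
    have h3 : 2 * k * b ≤ 2 * k * (1 / (2 * k) * a ^ k) := by gcongr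
    have h4 : 2 * k * (1 / (2 * k) * a ^ k) = a ^ k := by field_simp
    linarith
  have hsk : Real.sqrt k ≤ k := by
    rw [Real.sqrt_le_left hk0.le]
    nlinarith
  have hskp : 0 < Real.sqrt k := Real.sqrt_pos.2 hk0
  have h1 := ps_lower_adm k hk a b c ha hb hc t ht0 (by
    rw [le_div_iff₀ hskp]
    have : t * Real.sqrt k ≤ t * k := by gcongr
    nlinarith) ht.le
  rw [← ht]
  refine le_trans ?_ h1
  have hs1 : Real.sqrt ((k:ℝ) - 1) ^ 2 = (k:ℝ) - 1 := Real.sq_sqrt (by linarith)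
  have hs0 : 0 < Real.sqrt ((k:ℝ) - 1) := Real.sqrt_pos.2 (by linarith)
  have hsk1 : Real.sqrt ((k:ℝ) - 1) ≤ k := by
    rw [Real.sqrt_le_left hk0.le]
    nlinarith
  have hs2 : 1 ≤ Real.sqrt ((k:ℝ) - 1) := by rw [Real.one_le_sqrt]; linarith
  have h2 : Real.sqrt ((k:ℝ) - 1) * a - t / 2 ≤ Real.sqrt (((k:ℝ) - 1) * (a ^ 2 - t ^ 2)) := by
    apply Real.le_sqrt_of_sq_le
    have h3 : Real.sqrt ((k:ℝ) - 1) * t ≤ a / 2 := by
      have : Real.sqrt ((k:ℝ) - 1) * t ≤ k * t := by gcongr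
      linarith
    have h5 : (Real.sqrt ((k:ℝ) - 1) * t) * (Real.sqrt ((k:ℝ) - 1) * t) ≤
        (a / 2) * (Real.sqrt ((k:ℝ) - 1) * t) := by gcongr
    have h6 : t * t ≤ t * (Real.sqrt ((k:ℝ) - 1) * a) := by
      have : t ≤ Real.sqrt ((k:ℝ) - 1) * a := by nlinarith
      gcongr
    nlinarith
  linarith

/-- sharp order of the second term -/
theorem ps_sharp (k : ℕ) (hk : 2 ≤ k) : ∃ C c : ℝ, 0 < c ∧ ∀ a b : ℝ, 0 < a → 0 < b →
    b ≤ c * a ^ k →
    ((Real.sqrt ((k:ℝ) - 1) * a + b / a ^ (k - 1) / 2 : ℝ) : EReal) ≤ f k a b ∧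
    f k a b ≤ ((Real.sqrt ((k:ℝ) - 1) * a + C * (b / a ^ (k - 1)) : ℝ) : EReal) := by
  obtain ⟨C, c, hC, hc, H⟩ := ps_upper_lin k hk
  have hk0 : (0:ℝ) < k := by exact_mod_cast (by omega : 0 < k)
  refine ⟨C, min c (1 / (2 * k)), lt_min hc (by positivity), fun a b ha hb hba => ⟨?_, ?_⟩⟩
  · refine ps_low_lin k hk a b ha hb (hba.trans ?_)
    gcongr
    exact min_le_right _ _
  · have h1 : b ≤ c * a ^ k := by
      refine hba.trans ?_
      gcongr
      exact min_le_left _ _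
    exact sInf_le (mem_image_of_mem (fun c : ℝ => (c : EReal))
      (show _ ∈ {c | Admissible k a b c} from H a b ha hb h1))

/-- Main result. -/
theorem result :
    (∀ k : ℕ, 2 ≤ k → ∃ C c : ℝ, 0 < c ∧ ∀ a b : ℝ, 0 < a → 0 < b → b ≤ c * a ^ k →
      ((Real.sqrt ((k : ℝ) - 1) * a + b / a ^ (k - 1) / 2 : ℝ) : EReal) ≤ f k a b ∧
      f k a b ≤ ((Real.sqrt ((k : ℝ) - 1) * a + C * (b / a ^ (k - 1)) : ℝ) : EReal)) ∧
    (∀ k : ℕ, 2 ≤ k → ∃ C : ℝ, ∀ a b : ℝ, 0 < a → 0 < b →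
      ((Real.sqrt ((k : ℝ) - 1) * a : ℝ) : EReal) ≤ f k a b ∧
      f k a b ≤ ((Real.sqrt ((k : ℝ) - 1) * a + C * b ^ ((1 : ℝ) / k) : ℝ) : EReal)) ∧
    (∀ k : ℕ, 2 ≤ k → ∀ a : ℝ, 0 < a →
      Tendsto (fun b : ℝ => f k a b) (𝓝[>] 0) (𝓝 ((Real.sqrt ((k : ℝ) - 1) * a : ℝ) : EReal))) ∧
    (∀ k : ℕ, 2 ≤ k → ∀ a b t : ℝ, 0 < a → 0 < b → t = min (b / a ^ (k - 1)) (a / Real.sqrt k) →
      ((t + Real.sqrt ((k - 1) * (a ^ 2 - t ^ 2)) : ℝ) : EReal) ≤ f k a b) ∧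
    (∀ a b : ℝ, 0 < a → 0 < b → b ≤ a ^ 2 / 10000 →
      ((a + 2 * b / a - 13 * b ^ 2 / a ^ 3 : ℝ) : EReal) ≤ f 2 a b ∧
      f 2 a b ≤ ((a + 2 * b / a + 200 * b * Real.sqrt b / a ^ 2 : ℝ) : EReal)) := by
  refine ⟨ps_sharp, ps_two_sided, ps_limit, ?_, ?_⟩
  · intro k hk a b t ha hb ht
    have hk0 : (0:ℝ) < k := by exact_mod_cast (by omega : 0 < k)
    refine ps_le_f k a b _ fun c hc => ?_
    exact ps_lower_adm k hk a b c ha hb hc t (by rw [ht]; exact lt_min (by positivity) (by positivity))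
      (by rw [ht]; exact min_le_right _ _) (by rw [ht]; exact min_le_left _ _)
  · intro a b ha hb hba
    refine ⟨ps_le_f 2 a b _ fun c hc => ps_lower2 a b c ha hb ?_ hc, ps_upper a b ha hb hba⟩
    have : 0 < a ^ 2 := by positivity
    linarith

end Pool.Agent.Results.MP_72041b_co.AllDimensions
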